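import Mathlib
import Pool.Prelude.Def_F_458e953d
import Pool.Agent.Helper22.OracleDefs
import Pool.Agent.Helper20.Cons.Defs
import Pool.Agent.Helper49.Cons.AccDefs
import Pool.Agent.Helper49.Cons.Alt
import Pool.Agent.Helper6.Aff.Defs
import Pool.Agent.Helper6.Aff.Main

set_option autoImplicit false

namespace Pool.Agent.Helper6.Kept.AffineOracles

open N68a2faeb N793a5b8e N487b59b3 Pool.Agent.Helper22 Pool.Agent.Helper20.Cons
  Pool.Agent.Helper49.Cons Pool.Agent.Helper6.Aff

/-- Relative to `X`, the class NP ∩ coNP has a complete language, even under polynomial time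
reductions which do not use the oracle. -/
def CompletePlain (X : Oracle) : Prop :=
  ∃ L ∈ NPo X ∩ coNPo X, ∀ L' ∈ NPo X ∩ coNPo X, ManyOneReducible L' L

/-- What is conserved on the way from the oracle `A` to the oracle `X`: no inclusion between the
classes with the acceptance types `Φ i` is new, all inclusions of syntactic classes persist, and
all levels of the polynomial hierarchy satisfy the same inclusions. -/
def Conserves {ι : Type} (Φ : ι → Acc) (A X : Oracle) : Prop :=
  (∀ i j, Cls (Φ i) X ⊆ Cls (Φ j) X → Cls (Φ i) A ⊆ Cls (Φ j) A) ∧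
  (∀ i j, (Φ i).Syntactic → Cls (Φ i) A ⊆ Cls (Φ j) A → Cls (Φ i) X ⊆ Cls (Φ j) X) ∧
  (∀ k b k' b', AltP X k b ⊆ AltP X k' b' ↔ AltP A k b ⊆ AltP A k' b')

/-- The algebrization barrier. Whatever bases (with first vector `1`) of the fields `GF(2^(k+1))`
are used, there are affine oracles relative to which NP ∩ coNP has a complete language although
P ≠ NP ∩ coNP ≠ NP, and affine oracles relative to which it has none. More precisely, from every
affine oracle one reaches, by adding constant functions of odd arity, another affine oracle with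
a complete language, and exactly if NP ≠ coNP also one without; both without changing the
relations between syntactic classes and without losing a separation. -/
theorem result (B : Bases) (hB : ∀ k, B k 0 = 1) :
    (∃ f : Fam, CompletePlain (affOracle B f) ∧
      Po (affOracle B f) ≠ NPo (affOracle B f) ∩ coNPo (affOracle B f) ∧
      NPo (affOracle B f) ≠ coNPo (affOracle B f)) ∧
    (∃ f : Fam, affOracle B f ∉ HasCompleteRel) ∧
    (∀ (f : Fam) {ι : Type} [Countable ι] (Φ : ι → Acc),
      (∃ s : ℕ → Bool, CompletePlain (affOracle B (addConst f s)) ∧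
        Conserves Φ (affOracle B f) (affOracle B (addConst f s))) ∧
      (NPo (affOracle B f) ≠ coNPo (affOracle B f) → ∃ s : ℕ → Bool,
        affOracle B (addConst f s) ∉ HasCompleteRel ∧
        Conserves Φ (affOracle B f) (affOracle B (addConst f s))) ∧
      (NPo (affOracle B f) = coNPo (affOracle B f) → ∀ s : ℕ → Bool,
        CompletePlain (affOracle B (addConst f s)))) := by
  -- translation between joins and affine oracles
  have key : ∀ (f : Fam) (T : Oracle), Tally T → ∃ s : ℕ → Bool, T = tallyOf s :=
    fun f T hT => ⟨_, tally_eq hT⟩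
  have hplain : ∀ (f : Fam) (s : ℕ → Bool), CompletePlain (join (affOracle B f) (tallyOf s)) →
      CompletePlain (affOracle B (addConst f s)) := by
    intro f s h
    unfold CompletePlain at *
    rwa [NPo_eq (mred_toJoin B hB f s) (mred_fromJoin B hB f s),
      coNPo_eq (mred_toJoin B hB f s) (mred_fromJoin B hB f s)]
  have hcomp : ∀ (f : Fam) (s : ℕ → Bool),
      affOracle B (addConst f s) ∈ HasCompleteRel →
      join (affOracle B f) (tallyOf s) ∈ HasCompleteRel := by
    rintro f s ⟨L, hL, h⟩
    have e1 := NPo_eq (mred_toJoin B hB f s) (mred_fromJoin B hB f s)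
    have e2 := coNPo_eq (mred_toJoin B hB f s) (mred_fromJoin B hB f s)
    rw [e1, e2] at hL
    refine ⟨L, hL, fun A hA => ?_⟩
    rw [← e1, ← e2] at hA
    exact (mred_toJoin B hB f s).reducible (h A hA)
  have hcons : ∀ (f : Fam) (s : ℕ → Bool) {ι : Type} (Φ : ι → Acc),
      Conserves Φ (affOracle B f) (join (affOracle B f) (tallyOf s)) →
      Conserves Φ (affOracle B f) (affOracle B (addConst f s)) := by
    intro f s ι Φ h
    unfold Conserves at *
    simp only [cls_eq (mred_toJoin B hB f s) (mred_fromJoin B hB f s),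
      altP_eq (mred_toJoin B hB f s) (mred_fromJoin B hB f s)]
    exact h
  refine ⟨?_, ?_, ?_⟩
  · obtain ⟨f, hne, L, hL, hLP⟩ := exists_affine_sep B hB
    obtain ⟨T, hT, h1, h2, -, -, h5⟩ := on_switch (affOracle B f) (ι := Empty)
      (κ := OracleProc (List Bool) Bool) (fun i => i.elim) (fun M X y => some (M.run X y))
      (fun M X y => by
        filter_upwards [eventually_run M X y] with Y hY
        rw [hY]) {fun y => some (L y)} (Set.countable_singleton _)
    obtain ⟨s, rfl⟩ := key f T hT
    refine ⟨addConst f s, hplain f s h1, ?_, ?_⟩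
    · rw [Po_eq (mred_toJoin B hB f s) (mred_fromJoin B hB f s),
        NPo_eq (mred_toJoin B hB f s) (mred_fromJoin B hB f s),
        coNPo_eq (mred_toJoin B hB f s) (mred_fromJoin B hB f s)]
      intro heq
      have hLX : L ∈ NPo (join (affOracle B f) (tallyOf s)) ∩
          coNPo (join (affOracle B f) (tallyOf s)) := by
        rw [← AltP_one, ← AltP_one', ← cls_accAlt, ← cls_accAlt] at hL ⊢
        exact ⟨cls_embed _ _ _ hL.1, cls_embed _ _ _ hL.2⟩
      rw [← heq] at hLX
      obtain ⟨M, hM⟩ := hLX
      obtain ⟨Q, -, hQ, hQ'⟩ := h2 M (by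
        rw [Set.mem_singleton_iff]
        funext y
        rw [hM])
      apply hLP
      have h6 : L ∈ Po (join (affOracle B f) Q) := by
        refine ⟨M, fun x => ?_⟩
        have h7 := congrFun hQ' x
        simp only [Option.some.injEq] at h7
        rw [h7, hM]
      rw [← AltP_zero _ true, ← cls_accAlt] at h6 ⊢
      exact cls_absorb _ _ ((isPolyTime_iff _).1 hQ) h6
    · rw [NPo_eq (mred_toJoin B hB f s) (mred_fromJoin B hB f s),
        coNPo_eq (mred_toJoin B hB f s) (mred_fromJoin B hB f s)]
      rw [Ne, ← AltP_one, ← AltP_one', Set.Subset.antisymm_iff, h5, h5] 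
      rw [Ne, ← AltP_one, ← AltP_one', Set.Subset.antisymm_iff] at hne
      exact hne
  · obtain ⟨f, hne, -⟩ := exists_affine_sep B hB
    obtain ⟨T, hT, h1, -⟩ := off_switch (affOracle B f) hne (ι := Empty) (κ := Empty)
      (fun i => i.elim) (fun i => i.elim) (fun i => i.elim) ∅ Set.countable_empty
    obtain ⟨s, rfl⟩ := key f T hT
    exact ⟨addConst f s, fun h => h1 (hcomp f s h)⟩
  · intro f ι _ Φ
    refine ⟨?_, fun hne => ?_, fun heq s => ?_⟩
    · obtain ⟨T, hT, h1, -, h3⟩ := on_switch (affOracle B f) (κ := Empty) Φ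
        (fun i => i.elim) (fun i => i.elim) ∅ Set.countable_empty
      obtain ⟨s, rfl⟩ := key f T hT
      exact ⟨s, hplain f s h1, hcons f s Φ h3⟩
    · obtain ⟨T, hT, h1, h3⟩ := off_switch (affOracle B f) hne (κ := Empty) Φ
        (fun i => i.elim) (fun i => i.elim) ∅ Set.countable_empty
      obtain ⟨s, rfl⟩ := key f T hT
      exact ⟨s, fun h => h1 (hcomp f s h), hcons f s Φ h3⟩
    · exact hplain f s (complete_of_NPo_eq_coNPo (tally_tallyOf s) heq)

end Pool.Agent.Helper6.Kept.AffineOracles
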