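import Pool.Agent.QH.WMain

/-!
# Deterministic identity testing for all arithmetic formulas

For fixed `r` and `ε > 0` there is a deterministic algorithm which decides whether an arithmetic
formula `F` over the rationals computes the zero polynomial, in time polynomial in the length of
the input and in `2 ^ (k ^ (1 / 2 + ε))`, where `k` is the number of the leaves of `F` labelled by
variables which label more than `r` leaves. There is no bound on the depth, the degree or the
number of the leaves. The time is expressed by a second input `v`, any word of length at least
`2 ^ (k ^ (1 / 2 + ε))`; the algorithm takes polynomial time in the length of both inputs.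
For `r = 0` the number `k` is the number `s` of all leaves labelled by variables.
-/

namespace Pool.Agent.Results.MP_e2be99_lc.AllFormulas

open N487b59b3 N68a2faeb
open Pool.Agent.Helper6.WB (Fm)
open Pool.Agent.QH (heavy)

theorem result (r : ℕ) (ε : ℝ) (hε : 0 < ε) :
    ∃ f : List Bool × List (ℕ × ℚ) → Bool, IsPolyTime f ∧
      ∀ (v : List Bool) (F : Fm), (2 : ℝ) ^ ((heavy r F : ℝ) ^ (1 / 2 + ε)) ≤ v.length →
        (f (v, F.code) = true ↔ F.poly = 0) :=
  Pool.Agent.QH.mainW r hε

end Pool.Agent.Results.MP_e2be99_lc.AllFormulas
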