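import Pool.Agent.Helper6.Fanin.Main

/-!
# Black-box identity testing for sums of few products of polynomials in few variables

Explicit hitting sets, of polynomial size for a bounded number of products and factors that depend
on a bounded number of variables; the degrees and the multiplicities of the factors are arbitrary.
-/

namespace Pool.Agent.Helper6.Kept.BoundedFaninLocal

open MvPolynomial Pool.Agent.Helper6

/-- The explicit set `curveBalls n c L s Z` with `s = c k (k-1) / 2` and `Z = 2^(k+1) L + k` has at
most `(L+1)^c (n (Z+1) + 1)^s` points and contains a nonzero of every nonzero polynomial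
`∑ i < k, ∏ j, g i j ^ e i j`, where every `g i j` depends on at most `c` variables and the total
degrees of the `g i j` add up to at most `L`, whatever the exponents `e i j`. -/
theorem result (n k c L : ℕ) :
    (curveBalls n c L (c * (k * (k - 1) / 2)) (2 ^ (k + 1) * L + k)).card ≤
      (L + 1) ^ c * (n * (2 ^ (k + 1) * L + k + 1) + 1) ^ (c * (k * (k - 1) / 2)) ∧
    ∀ f ∈ SumProdLocal n k c L, f ≠ 0 →
      ∃ x ∈ curveBalls n c L (c * (k * (k - 1) / 2)) (2 ^ (k + 1) * L + k),
        eval (fun v => (x v : ℚ)) f ≠ 0 :=
  ⟨card_curveBalls n c L _ _, fun f hf hf0 => hit_curveBalls n k c L f hf hf0⟩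

end Pool.Agent.Helper6.Kept.BoundedFaninLocal
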