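import Pool.Agent.Helper8.RGL.Final

/-!
# Black-box identity testing for bounded top fan-in over read-k formulas and programs of constant
width

Explicit hitting sets for sums of boundedly many products (more generally, for polynomials in
boundedly many algebraically independent products, and their divisors) of arbitrary powers of
polynomials computed by formulas of bounded depth and bounded occurrence over read-r trees of
unbounded depth and register number `s`, with leaves in `l` variables and read-once formulas as
leaves. The size is polynomial for bounded `s` (for instance, for sums of boundedly many products of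
read-once formulas, `s = 0`, or of read-r programs of constant width with `l`-local layers, `s = 1`)
and quasi-polynomial without any bound for `s`.
-/

namespace Pool.Agent.Results.MP_e2be99_lc.OccurReadKFormulas

open MvPolynomial Pool.Agent.Helper8.Occ
open Pool.Agent.Helper8.RGL (RG)
open Pool.Agent.Helper8.ReadKTree (points)

theorem result : ∀ l w r κ k Δ : ℕ, ∃ c : ℕ, ∀ n R s : ℕ,
    (points n (c * (min s (Nat.clog 2 n) + 1)) R).card ≤
        ((R + 1) * (n * R + 1)) ^ (c * (min s (Nat.clog 2 n) + 1)) ∧
    ∀ (N m : ℕ) (a : Fin N → ℚ) (g : Fin N → Fin m → MvPolynomial (Fin n) ℚ)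
      (e : Fin N → Fin m → ℕ), (∀ i j, OccFormula κ (RG l w n r s) Δ (g i j)) →
      (∀ b : Finset (Fin N),
        AlgebraicIndepOn ℚ (fun i => ∏ j, g i j ^ e i j) (b : Set (Fin N)) → b.card ≤ k) →
      ∑ i, C (a i) * ∏ j, g i j ^ e i j ≠ 0 →
      ∀ f : MvPolynomial (Fin n) ℚ, f ∣ ∑ i, C (a i) * ∏ j, g i j ^ e i j →
        (f.totalDegree ≤ R ∨ 2 ^ (N + 1) * (n * ∑ i, ∑ j, (g i j).totalDegree) + N ≤ R) →
        ∃ x ∈ points n (c * (min s (Nat.clog 2 n) + 1)) R, eval x f ≠ 0 :=
  fun l w r κ k Δ => ⟨Pool.Agent.Helper8.RGL.cR l w r κ k Δ, fun _ _ _ =>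
    ⟨Pool.Agent.Helper8.Tree.card_points _ _ _,
      fun _ _ a g e hg htr h0 f hf hR => Pool.Agent.Helper8.RGL.hit a g e hg htr h0 f hf hR⟩⟩

end Pool.Agent.Results.MP_e2be99_lc.OccurReadKFormulas
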