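import Pool.Agent.RPX.Main

/-!
# Deterministic polynomial-time identity testing over products of read-once oblivious programs and
read-r formulas

For fixed constants there is a deterministic Turing machine which decides in polynomial time
whether `Q(T_0, ..., T_{m-1}) = 0`. Here `Q` is an arbitrary arithmetic formula over the rationals
and `T_j` is a product of any number of factors; at most `k` of the `T_j` are algebraically
independent (for instance `m = k`, and `Q` is the sum of its variables). A factor is given by a
formula over leaves, which are formulas in the variables `x_i` reading every variable at most `r`
times and read-once oblivious algebraic branching programs in the variables `y_i` (any width, one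
order of the variables, tame); the polynomial of the factor must be computed by some formula of
bounded depth and bounded occurrence over these leaves, which is not part of the input.
In particular all factors may be programs of bounded individual degree, or of bounded width.
-/

namespace Pool.Agent.Results.MP_e2be99_lc.RoabpReadKProductsInP

open N487b59b3 N68a2faeb MvPolynomial Pool.Agent.RPX
open Pool.Agent.Helper6.WB (Fm)
open Pool.Agent.RP (Rb)

theorem result (κ k r t Δ : ℕ) : ∃ f : List (ℕ × ℚ) ×
      List (List (List (ℕ × ℚ) × (List (List (ℕ × ℚ)) × List Rb))) → Bool,
    IsPolyTime f ∧ ∀ (Q : Fm) (L : List (List Fac)),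
      (∀ p ∈ L, ∀ c ∈ p, Good κ k r t Δ c) →
      (∀ b : Finset (Fin L.length), AlgebraicIndepOn ℚ
        (fun i => ((L.get i).map facPoly).prod) (b : Set (Fin L.length)) → b.card ≤ k) →
      (f (Q.code, L.map fun p => p.map facCode) = true ↔
        aeval (fun i => (L.map fun p => (p.map facPoly).prod).getD i 0) Q.poly = 0) :=
  Pool.Agent.RPX.main κ k r t Δ

end Pool.Agent.Results.MP_e2be99_lc.RoabpReadKProductsInP
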